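import Pool.Agent.K3h53.UG.Stm
import Pool.Agent.K3h67.EX.Solve
import Pool.Agent.K3h18.EX.ExpB

/-! UG project (helper53), brick SOL: solution of `Φ_j(R ζ + w) - L_j(w) ∈ 2 π i ℤ`. -/

set_option autoImplicit false

namespace Pool.Agent.K3h87.UG

open MvPolynomial Filter Topology Metric Set Pool.Agent.K3h22.EX Pool.Agent.K3h53.UG
open Pool.Agent.K3h67.EX (dlin dlin_apply hasStrict diffable)

theorem sol_of_expb : S_EXPB → S_BC → S_SOL := by
  intro hEXPB hBC s Φ ζ w₀ ε C b a hε hdeg hre hdet hw₀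
  classical
  set ρ₀ : ℝ := ‖w₀‖ + ε with hρ₀
  choose Cj hCj0 hCj using fun j => hEXPB s (Φ j) ζ ρ₀ (by have := hdeg j; omega)
  set C1 : ℝ := ∑ j, Cj j with hC1def
  have hC1 : ∀ j, Cj j ≤ C1 := fun j =>
    Finset.single_le_sum (f := Cj) (fun j _ => hCj0 j) (Finset.mem_univ j)
  have hC1nn : 0 ≤ C1 := Finset.sum_nonneg fun j _ => hCj0 j
  set B1 : ℝ := ∑ j, |b j| with hB1def
  have hB1 : ∀ j, |b j| ≤ B1 := fun j =>
    Finset.single_le_sum (f := fun j => |b j|) (fun j _ => abs_nonneg _) (Finset.mem_univ j)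
  have hB1nn : 0 ≤ B1 := Finset.sum_nonneg fun j _ => abs_nonneg _
  set A1 : ℝ := ∑ j, |a j| with hA1def
  have hA1 : ∀ j, |a j| ≤ A1 := fun j =>
    Finset.single_le_sum (f := fun j => |a j|) (fun j _ => abs_nonneg _) (Finset.mem_univ j)
  have hA1nn : 0 ≤ A1 := Finset.sum_nonneg fun j _ => abs_nonneg _
  set M := jac (fun j => top (Φ j)) ζ with hM
  set A : (Fin s → ℂ) →L[ℂ] (Fin s → ℂ) :=
    ContinuousLinearMap.pi fun a => dlin (top (Φ a)) ζ with hAdef
  have hA : ∀ v, A v = M.mulVec v := by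
    intro v
    funext a
    change dlin (top (Φ a)) ζ v = _
    rw [dlin_apply]
    simp [hM, jac, Matrix.mulVec, dotProduct]
  set B : (Fin s → ℂ) →L[ℂ] (Fin s → ℂ) := (Matrix.toLin' M⁻¹).toContinuousLinearMap with hBdef
  have hB : ∀ v, B v = M⁻¹.mulVec v := by
    intro v; simp [hBdef]
  have hAB : ∀ v, A (B v) = v := by
    intro v
    rw [hA, hB, Matrix.mulVec_mulVec, Matrix.mul_nonsing_inv _ (Ne.isUnit hdet), Matrix.one_mulVec]
  set N : NNReal := ‖B‖₊ + 1 with hN
  have hNpos : 0 < N := by positivity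
  let rinv : A.NonlinearRightInverse :=
    { toFun := B
      nnnorm := N
      bound' := by
        intro y
        refine (B.le_opNorm y).trans ?_
        have : ‖B‖ ≤ (N : ℝ) := by rw [hN]; push_cast; linarith
        exact mul_le_mul_of_nonneg_right this (norm_nonneg _)
      right_inv' := hAB }
  set Kn : NNReal := (8 * N)⁻¹ with hKn
  have hKnpos : 0 < Kn := by positivity
  set K : ℝ := (Kn : ℝ) with hK
  have hKpos : 0 < K := by exact_mod_cast hKnpos
  have hKN : (N : ℝ)⁻¹ = 8 * K := by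
    rw [hK, hKn]; push_cast
    have : (0:ℝ) < N := by exact_mod_cast hNpos
    field_simp
  set ρ : ℝ := ε / 8 with hρdef
  have hρ : 0 < ρ := by positivity
  -- the constants
  set C2 : ℝ := C1 + 100 * (|C| + 1) / ε with hC2
  have hC2nn : 0 ≤ C2 := by positivity
  set C3 : ℝ := (1 + ‖w₀‖) * C1 + B1 + |C| + Real.pi with hC3
  have hC3nn : 0 ≤ C3 := by have := Real.pi_pos; positivity
  obtain ⟨R₁, hR₁⟩ : ∃ R₁ : ℝ, ∀ R, R₁ ≤ R → (C3 + A1 * Real.log R) / R ≤ 4 * K * ρ := by
    have h1 : Tendsto (fun R : ℝ => C3 / R + A1 * (Real.log R / R)) atTop (𝓝 (0 + A1 * 0)) := by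
      apply Tendsto.add
      · exact tendsto_const_nhds.div_atTop tendsto_id
      · apply Tendsto.const_mul
        exact Real.isLittleO_log_id_atTop.tendsto_div_nhds_zero
    rw [mul_zero, add_zero] at h1
    have h2 : ∀ᶠ R : ℝ in atTop, C3 / R + A1 * (Real.log R / R) < 4 * K * ρ :=
      h1.eventually (gt_mem_nhds (by positivity))
    obtain ⟨R₁, h⟩ := eventually_atTop.1 h2
    refine ⟨R₁, fun R hR => ?_⟩
    have := h R hR
    rw [add_div, mul_div_assoc]
    exact this.le
  refine ⟨max (1 + C2 / K) R₁, ?_, ?_⟩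
  · have : 0 ≤ C2 / K := by positivity
    exact le_trans (by linarith) (le_max_left _ _)
  intro R hR L hL hLre
  have hRa : 1 + C2 / K ≤ R := (le_max_left _ _).trans hR
  have hRb : R₁ ≤ R := (le_max_right _ _).trans hR
  have p1 : 0 ≤ C2 / K := by positivity
  have hR1 : 1 ≤ R := by linarith
  have hR0 : 0 < R := by linarith
  have q1 : C2 / R ≤ K := by
    have : C2 / K ≤ R := by linarith
    rw [div_le_iff₀ hKpos] at this
    rw [div_le_iff₀ hR0]
    linarith
  have q2 := hR₁ R hRb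
  have hlog : 0 ≤ Real.log R := Real.log_nonneg hR1
  -- the powers
  have hrpos : ∀ j, 0 < R ^ ((Φ j).totalDegree - 1) := fun j => by positivity
  have hrR : ∀ j, R ≤ R ^ ((Φ j).totalDegree - 1) := by
    intro j
    calc R = R ^ 1 := (pow_one R).symm
      _ ≤ _ := pow_le_pow_right₀ hR1 (by have := hdeg j; omega)
  have hrD : ∀ j, R ^ (Φ j).totalDegree / R ^ 2 = R ^ ((Φ j).totalDegree - 1) / R := by
    intro j
    have h1 : (Φ j).totalDegree = ((Φ j).totalDegree - 1) + 1 := by have := hdeg j; omega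
    rw [h1, pow_succ, Nat.add_sub_cancel]
    field_simp
  have hrn : ∀ j, ‖((R : ℂ) ^ ((Φ j).totalDegree - 1))⁻¹‖ = (R ^ ((Φ j).totalDegree - 1))⁻¹ := by
    intro j
    rw [norm_inv, norm_pow, Complex.norm_real, Real.norm_of_nonneg hR0.le]
  have hpt : ∀ w, pt ζ R w = sc R ζ + w := by
    intro w; funext i; rfl
  have hvn : ∀ v ∈ ball w₀ ε, ‖v‖ ≤ ρ₀ := by
    intro v hv
    rw [mem_ball, dist_eq_norm] at hv
    have : ‖v‖ ≤ ‖v - w₀‖ + ‖w₀‖ := by simpa using norm_add_le (v - w₀) w₀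
    rw [hρ₀]; linarith
  have hMd : ∀ j (v w : Fin s → ℂ), ∑ i, eval ζ (pderiv i (top (Φ j))) * (v i - w i) =
      A (v - w) j := by
    intro j v w
    change _ = dlin (top (Φ j)) ζ (v - w)
    rw [dlin_apply]
    rfl
  -- Lipschitz property of `L`
  have hLlip : ∀ j, ∀ v ∈ ball w₀ (ε / 4), ∀ w ∈ ball w₀ (ε / 4),
      ‖L j v - L j w‖ ≤ 100 * (|C| + 1) / ε * ‖v - w‖ := by
    intro j v hv w hw
    have h := hBC s w₀ ε (|C| + 1)
      (fun v => L j v - ((b j * R + a j * Real.log R : ℝ) : ℂ)) hε (by positivity)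
      ((hL j).sub (differentiableOn_const _)) (by
        intro v hv
        have h1 := hLre j v hv
        simp only [Complex.sub_re, Complex.ofReal_re]
        have h2 := le_abs_self C
        linarith) v hv w hw
    simpa using h
  set G : (Fin s → ℂ) → (Fin s → ℂ) := fun v j =>
    ((R : ℂ) ^ ((Φ j).totalDegree - 1))⁻¹ * (eval (pt ζ R v) (Φ j) - L j v) with hG
  have hsub : closedBall w₀ ρ ⊆ ball w₀ (ε / 4) := by
    apply closedBall_subset_ball
    rw [hρdef]; linarith
  have hsub' : ball w₀ (ε / 4) ⊆ ball w₀ ε := ball_subset_ball (by linarith)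
  have hRc : ∀ j, ((R : ℂ) ^ ((Φ j).totalDegree - 1)) ≠ 0 :=
    fun j => pow_ne_zero _ (by exact_mod_cast hR0.ne')
  have hGapp : ApproximatesLinearOn G A (closedBall w₀ ρ) (3 * Kn) := by
    intro v hv w hw
    have hv' := hsub hv
    have hw' := hsub hw
    push_cast
    rw [pi_norm_le_iff_of_nonneg (by positivity)]
    intro j
    have h1 := (hCj j R hR1).2 v w (hvn v (hsub' hv')) (hvn w (hsub' hw'))
    rw [← hpt, ← hpt, hMd, mul_div_assoc, hrD] at h1
    have h2 := hLlip j v hv' w hw'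
    have e : (G v - G w - A (v - w)) j = ((R : ℂ) ^ ((Φ j).totalDegree - 1))⁻¹ *
        (eval (pt ζ R v) (Φ j) - eval (pt ζ R w) (Φ j) -
          (R : ℂ) ^ ((Φ j).totalDegree - 1) * A (v - w) j) -
        ((R : ℂ) ^ ((Φ j).totalDegree - 1))⁻¹ * (L j v - L j w) := by
      have := hRc j
      simp only [hG, Pi.sub_apply]
      field_simp
      ring
    rw [e]
    refine (norm_sub_le _ _).trans ?_
    rw [norm_mul, norm_mul, hrn]
    have hr := hrpos j
    have h3 : (R ^ ((Φ j).totalDegree - 1))⁻¹ * ‖eval (pt ζ R v) (Φ j) - eval (pt ζ R w) (Φ j) -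
          (R : ℂ) ^ ((Φ j).totalDegree - 1) * A (v - w) j‖ ≤ C1 / R * ‖v - w‖ := by
      calc _ ≤ (R ^ ((Φ j).totalDegree - 1))⁻¹ *
            (Cj j * (R ^ ((Φ j).totalDegree - 1) / R) * ‖v - w‖) := by gcongr
        _ = Cj j / R * ‖v - w‖ := by field_simp
        _ ≤ _ := by gcongr; exact hC1 j
    have h4 : (R ^ ((Φ j).totalDegree - 1))⁻¹ * ‖L j v - L j w‖ ≤
        (100 * (|C| + 1) / ε) / R * ‖v - w‖ := by
      calc _ ≤ R⁻¹ * (100 * (|C| + 1) / ε * ‖v - w‖) := by
            gcongr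
            exact hrR j
        _ = _ := by field_simp
    have h5 : C1 / R * ‖v - w‖ + (100 * (|C| + 1) / ε) / R * ‖v - w‖ = C2 / R * ‖v - w‖ := by
      rw [hC2]; ring
    have h6 : C2 / R * ‖v - w‖ ≤ 3 * K * ‖v - w‖ := by
      gcongr
      linarith
    linarith
  have hsurj := hGapp.surjOn_closedBall_of_nonlinearRightInverse rinv hρ.le (subset_refl _)
  have hrad : 4 * K * ρ ≤ (((rinv.nnnorm : ℝ))⁻¹ - ((3 * Kn : NNReal) : ℝ)) * ρ := by
    have : (rinv.nnnorm : ℝ) = (N : ℝ) := rfl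
    rw [this, hKN]
    push_cast
    nlinarith
  choose n hn using fun j => (⟨round ((eval (pt ζ R w₀) (Φ j) - L j w₀).im /
    (2 * Real.pi)), abs_sub_round _⟩ : ∃ n : ℤ, |(eval (pt ζ R w₀) (Φ j) - L j w₀).im /
      (2 * Real.pi) - n| ≤ 1 / 2)
  set τ : Fin s → ℂ := fun j => 2 * Real.pi * Complex.I * (n j : ℂ) /
    (R : ℂ) ^ ((Φ j).totalDegree - 1) with hτ
  have hw₀b : w₀ ∈ ball w₀ ε := mem_ball_self hε
  -- the real part
  have hRe : ∀ j, |(eval (pt ζ R w₀) (Φ j) - L j w₀).re| ≤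
      ((1 + ‖w₀‖) * C1 + B1 + |C| + A1 * Real.log R) / R * R ^ ((Φ j).totalDegree - 1) := by
    intro j
    have hr := hrpos j
    have h1 := (hCj j R hR1).1
    have h2 := (hCj j R hR1).2 w₀ 0 (hvn w₀ hw₀b) (by
      rw [norm_zero, hρ₀]; positivity)
    rw [← hpt, hMd, mul_div_assoc, hrD, add_zero] at h2
    rw [mul_div_assoc, hrD] at h1
    simp only [sub_zero] at h2
    have h3 := (Complex.abs_re_le_norm _).trans h1
    have h4 := (Complex.abs_re_le_norm _).trans h2
    have hrr : ∀ z : ℂ, ((R : ℂ) ^ ((Φ j).totalDegree - 1) * z).re =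
        R ^ ((Φ j).totalDegree - 1) * z.re := by
      intro z
      rw [← Complex.ofReal_pow, Complex.re_ofReal_mul]
    have hrr' : ((R : ℂ) ^ (Φ j).totalDegree * eval ζ (top (Φ j))).re = 0 := by
      rw [← Complex.ofReal_pow, Complex.re_ofReal_mul, hre j, mul_zero]
    rw [Complex.sub_re, Complex.sub_re, hrr', hrr, sub_zero] at h3
    rw [Complex.sub_re, Complex.sub_re, hrr] at h4
    have h5 := hLre j w₀ hw₀b
    have h6 := hw₀ j
    rw [Complex.add_re, ← hA] at h6
    set r : ℝ := R ^ ((Φ j).totalDegree - 1) with hr_def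
    set x0 := (eval (sc R ζ) (Φ j)).re
    set x1 := (eval (pt ζ R w₀) (Φ j)).re with hx1
    set y := (eval ζ (homogeneousComponent ((Φ j).totalDegree - 1) (Φ j))).re
    set z := (A w₀ j).re
    set l := (L j w₀).re
    rw [Complex.sub_re]
    -- `|x1 - r (y + z)| ≤ (1 + ‖w₀‖) C1 r / R`
    have h7 : |x1 - r * (z + y)| ≤ (1 + ‖w₀‖) * C1 * (r / R) := by
      have e : x1 - r * (z + y) = (x1 - x0 - r * z) + (x0 - r * y) := by ring
      rw [e]
      refine (abs_add_le _ _).trans ?_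
      have h8 : Cj j * (r / R) * ‖w₀‖ ≤ C1 * (r / R) * ‖w₀‖ := by
        gcongr
        exact hC1 j
      have h9 : Cj j * (r / R) ≤ C1 * (r / R) := by
        gcongr
        exact hC1 j
      nlinarith
    have hCC := le_abs_self C
    have hlogj : |a j * Real.log R| ≤ A1 * Real.log R := by
      rw [abs_mul, abs_of_nonneg hlog]
      exact mul_le_mul_of_nonneg_right (hA1 j) hlog
    have hrR' : 1 ≤ r / R := by
      rw [le_div_iff₀ hR0, one_mul]; exact hrR j
    have hgoal : ((1 + ‖w₀‖) * C1 + B1 + |C| + A1 * Real.log R) / R * r =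
        ((1 + ‖w₀‖) * C1) * (r / R) + (B1 + |C| + A1 * Real.log R) * (r / R) := by
      ring
    rw [hgoal]
    have hx : |x1 - l| ≤ |x1 - r * (z + y)| + |r * (z + y) - b j * R| + |a j * Real.log R| +
        |l - (b j * R + a j * Real.log R)| := by
      have e : x1 - l = (x1 - r * (z + y)) + (r * (z + y) - b j * R) + (- (a j * Real.log R)) +
          (-(l - (b j * R + a j * Real.log R))) := by ring
      rw [e]
      refine (abs_add_le _ _).trans ?_
      rw [abs_neg]
      refine add_le_add_left ?_ _ |>.trans le_rfl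
      refine (abs_add_le _ _).trans ?_
      rw [abs_neg]
      refine add_le_add_left ?_ _ |>.trans le_rfl
      exact abs_add_le _ _
    have hbj : |r * (z + y) - b j * R| ≤ B1 * (r / R) := by
      by_cases hD : (Φ j).totalDegree = 2
      · rw [if_pos hD] at h6
        have hrr2 : r = R := by rw [hr_def, hD]; norm_num
        have : r * (z + y) - b j * R = 0 := by rw [h6, hrr2]; ring
        rw [this, abs_zero]
        positivity
      · rw [if_neg hD] at h6
        have : r * (z + y) - b j * R = -(b j * R) := by rw [h6]; ring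
        rw [this, abs_neg, abs_mul, abs_of_pos hR0]
        have hrr3 : R * R ≤ r := by
          rw [hr_def]
          calc R * R = R ^ 2 := by ring
            _ ≤ _ := pow_le_pow_right₀ hR1 (by have := hdeg j; omega)
        have : R ≤ r / R := by rw [le_div_iff₀ hR0]; exact hrr3
        exact mul_le_mul (hB1 j) this hR0.le hB1nn
    have h10 : A1 * Real.log R ≤ A1 * Real.log R * (r / R) :=
      le_mul_of_one_le_right (by positivity) hrR'
    have h11 : |C| ≤ |C| * (r / R) := le_mul_of_one_le_right (abs_nonneg _) hrR'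
    nlinarith
  have hτmem : τ ∈ closedBall (G w₀) ((((rinv.nnnorm : ℝ))⁻¹ - ((3 * Kn : NNReal) : ℝ)) * ρ) := by
    rw [mem_closedBall, dist_eq_norm]
    refine le_trans ?_ hrad
    rw [pi_norm_le_iff_of_nonneg (by positivity)]
    intro j
    have e : (τ - G w₀) j = ((R : ℂ) ^ ((Φ j).totalDegree - 1))⁻¹ *
        (2 * Real.pi * Complex.I * (n j : ℂ) - (eval (pt ζ R w₀) (Φ j) - L j w₀)) := by
      have := hRc j
      simp only [hG, hτ, Pi.sub_apply]
      field_simp
    rw [e, norm_mul, hrn]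
    set X : ℂ := eval (pt ζ R w₀) (Φ j) - L j w₀ with hX
    have hr : (2 * Real.pi * Complex.I * (n j : ℂ) - X).re = -X.re := by
      simp only [Complex.sub_re]
      simp
    have hi : (2 * Real.pi * Complex.I * (n j : ℂ) - X).im = 2 * Real.pi * n j - X.im := by
      simp only [Complex.sub_im]
      simp
    have hi' : |2 * Real.pi * n j - X.im| ≤ Real.pi := by
      have h5 := hn j
      have hpi := Real.pi_pos
      have h6 : 2 * Real.pi * n j - X.im = - (2 * Real.pi) * (X.im / (2 * Real.pi) - n j) := by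
        field_simp
        ring
      rw [h6, abs_mul, abs_neg, abs_of_pos (by positivity : 0 < 2 * Real.pi)]
      nlinarith
    have hnorm : ‖(2 * Real.pi * Complex.I * (n j : ℂ) - X)‖ ≤
        ((1 + ‖w₀‖) * C1 + B1 + |C| + A1 * Real.log R) / R * R ^ ((Φ j).totalDegree - 1) +
          Real.pi := by
      refine (Complex.norm_le_abs_re_add_abs_im _).trans ?_
      rw [hr, hi, abs_neg]
      exact add_le_add (hRe j) hi'
    have hrj := hrpos j
    have hpi := Real.pi_pos
    calc _ ≤ (R ^ ((Φ j).totalDegree - 1))⁻¹ * (((1 + ‖w₀‖) * C1 + B1 + |C| +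
          A1 * Real.log R) / R * R ^ ((Φ j).totalDegree - 1) + Real.pi) := by
          gcongr
      _ = ((1 + ‖w₀‖) * C1 + B1 + |C| + A1 * Real.log R) / R +
          Real.pi / R ^ ((Φ j).totalDegree - 1) := by
          field_simp
      _ ≤ ((1 + ‖w₀‖) * C1 + B1 + |C| + A1 * Real.log R) / R + Real.pi / R := by
          gcongr
          exact hrR j
      _ = (C3 + A1 * Real.log R) / R := by
          rw [hC3]; ring
      _ ≤ 4 * K * ρ := q2
  obtain ⟨v, hv, hGv⟩ := hsurj hτmem
  have hv4 := hsub hv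
  refine ⟨v, hsub' hv4, fun j => ⟨n j, ?_⟩⟩
  have h7 := congrFun hGv j
  simp only [hG, hτ] at h7
  have := hRc j
  field_simp at h7
  linear_combination h7

theorem t_SOL : S_BC → S_SOL := sol_of_expb Pool.Agent.K3h18.EX.t_EXPB

end Pool.Agent.K3h87.UG
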